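import Pool.Agent.Lib.MP_a8dae7_an.CG.ALL

/-!
# The trace inequality for all smooth hypersurfaces of the torus, with the loss `lam^(1/3+ε)`

No curvature is assumed. All eigenfunctions are treated, in every dimension.
-/

set_option autoImplicit false

open scoped BigOperators ContDiff
open MeasureTheory

namespace Pool.Agent.Results.MP_a8dae7_an.AllHypersurfaces

open Pool.Agent.Lib.MP_a8dae7_an

/-- The trigonometric polynomial `u(x) = ∑_{n ∈ s} a_n e^{i n·x}` on `ℝ^d` (`2π`-periodic in every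
coordinate). If all `n ∈ s` have `|n| = lam` it is an eigenfunction, `-Δ u = lam² u`, and every
eigenfunction of the torus is of this form. -/
noncomputable def expSum {d : ℕ} (s : Finset (Fin d → ℤ)) (a : (Fin d → ℤ) → ℂ) (x : Fin d → ℝ) : ℂ :=
  ∑ n ∈ s, a n * Complex.exp (Complex.I * ((∑ i, (n i : ℝ) * x i : ℝ) : ℂ))

/-- Near `p` the set `S` is contained in the graph `{p + J y + g(y) nu}` of a `C^∞` function `g` over the
hyperplane `p + J(ℝ^k)`, where `nu` is a unit normal of this hyperplane and the gradient of `g` vanishes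
at `0` (so that the hyperplane is the tangent hyperplane at `p`). -/
def IsSmoothAt {k : ℕ} (S : Set (EuclideanSpace ℝ (Fin (k + 1)))) (p : EuclideanSpace ℝ (Fin (k + 1))) :
    Prop :=
  ∃ (J : EuclideanSpace ℝ (Fin k) →ₗᵢ[ℝ] EuclideanSpace ℝ (Fin (k + 1)))
    (nu : EuclideanSpace ℝ (Fin (k + 1))) (g : EuclideanSpace ℝ (Fin k) → ℝ) (rho : ℝ),
    ‖nu‖ = 1 ∧ (∀ v, inner ℝ nu (J v) = 0) ∧ ContDiff ℝ ∞ g ∧ g 0 = 0 ∧ fderiv ℝ g 0 = 0 ∧ 0 < rho ∧
    ∀ x ∈ S, ‖x - p‖ < rho → ∃ y : EuclideanSpace ℝ (Fin k), x = p + J y + g y • nu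

/-- **Theorem.** Let `S` be a compact `C^∞` hypersurface of `ℝ^(k+1)`, `k + 1 ≥ 2` (closed, or a compact
piece of a hypersurface), without any assumption on its curvature, and let `ε > 0`. Then
`∫_S |u|² dμ ≤ C lam^(1/3+ε) ∫_{[0,2π]^(k+1)} |u|²` for all eigenfunctions `u` of the flat torus with
eigenvalue `lam²`, `lam ≥ 1`, where `μ` is the `k`-dimensional Hausdorff measure. -/
theorem result (k : ℕ) (hk : 1 ≤ k) (S : Set (EuclideanSpace ℝ (Fin (k + 1)))) (hc : IsCompact S)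
    (hS : ∀ p ∈ S, IsSmoothAt S p) (ε : ℝ) (hε : 0 < ε) :
    ∃ C : ℝ, 0 < C ∧ ∀ (lam : ℝ) (s : Finset (Fin (k + 1) → ℤ)) (a : (Fin (k + 1) → ℤ) → ℂ),
      1 ≤ lam → (∀ n ∈ s, ∑ i, (n i : ℝ) ^ 2 = lam ^ 2) →
      ∫⁻ x in S, ENNReal.ofReal (‖expSum s a (fun i => x i)‖ ^ 2)
        ∂(Measure.hausdorffMeasure (k : ℝ))
        ≤ ENNReal.ofReal (C * lam ^ (1 / 3 + ε) *
          ∫ x in Set.pi Set.univ (fun _ : Fin (k + 1) => Set.Icc (0 : ℝ) (2 * Real.pi)),
            ‖expSum s a x‖ ^ 2) :=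
  CG.MainM.main CG.all_specFIN k hk S hc hS ε hε

end Pool.Agent.Results.MP_a8dae7_an.AllHypersurfaces
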