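import Pool.Agent.Lib.MP_a8dae7_an.FP.ALL

/-!
# The trace inequality for flat hypersurfaces of the torus, up to a power of the logarithm
-/

set_option autoImplicit false

open scoped BigOperators
open MeasureTheory

namespace Pool.Agent.Results.MP_a8dae7_an.FlatHypersurfaces

open Pool.Agent.Lib.MP_a8dae7_an

/-- The trigonometric polynomial `u(x) = ∑_{n ∈ s} a_n e^{i n·x}` on `ℝ^d` (`2π`-periodic in every
coordinate). If all `n ∈ s` have `|n| = lam` it is an eigenfunction, `-Δ u = lam² u`, and every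
eigenfunction of the torus is of this form. -/
noncomputable def expSum {d : ℕ} (s : Finset (Fin d → ℤ)) (a : (Fin d → ℤ) → ℂ) (x : Fin d → ℝ) : ℂ :=
  ∑ n ∈ s, a n * Complex.exp (Complex.I * ((∑ i, (n i : ℝ) * x i : ℝ) : ℂ))

/-- The trace inequality for flat pieces of hypersurfaces of `T^(k+1)`, in every direction:
`A` is an isometric parametrisation of the affine hyperplane with unit normal `ν`. -/
theorem result (k : ℕ) (hk : 1 ≤ k) : ∃ C : ℝ, 0 < C ∧
    ∀ (A : EuclideanSpace ℝ (Fin k) →ᵃⁱ[ℝ] EuclideanSpace ℝ (Fin (k + 1)))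
      (ν : EuclideanSpace ℝ (Fin (k + 1))), ‖ν‖ = 1 →
      (∀ v : EuclideanSpace ℝ (Fin k), inner ℝ ν (A.linearIsometry v) = 0) →
      ∀ (lam T ρ : ℝ), 0 ≤ lam → 1 ≤ T → 1 ≤ ρ →
      ∀ (s : Finset (Fin (k + 1) → ℤ)) (a : (Fin (k + 1) → ℤ) → ℂ),
        (∀ n ∈ s, ∑ i, (n i : ℝ) ^ 2 = lam ^ 2) →
        (∀ n ∈ s, lam ≤ T * max 1 |∑ i, ν i * (n i : ℝ)|) →
        ∫ z in Metric.closedBall (0 : EuclideanSpace ℝ (Fin k)) ρ, ‖expSum s a (fun i => (A z) i)‖ ^ 2
          ≤ C * ρ ^ k * Real.log (2 + T) ^ k *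
            ∫ x in Set.pi Set.univ (fun _ : Fin (k + 1) => Set.Icc (0 : ℝ) (2 * Real.pi)),
              ‖expSum s a x‖ ^ 2 :=
  FP.main k hk

end Pool.Agent.Results.MP_a8dae7_an.FlatHypersurfaces
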