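import Pool.Agent.Lib.MP_a8dae7_an.D4.ALL

/-!
# The trace inequality for hypersurfaces of the 4-dimensional torus with nonvanishing curvature

The curvature may have any signature. All eigenfunctions are treated; the loss is `lam^ε`.
-/

set_option autoImplicit false

open scoped BigOperators ContDiff
open MeasureTheory

namespace Pool.Agent.Results.MP_a8dae7_an.NonvanishingCurvatureFour

open Pool.Agent.Lib.MP_a8dae7_an

/-- The Euclidean space `ℝ^n`. -/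
abbrev E (n : ℕ) : Type := EuclideanSpace ℝ (Fin n)

/-- The trigonometric polynomial `u(x) = ∑_{n ∈ s} a_n e^{i n·x}` on `ℝ⁴` (`2π`-periodic in every
coordinate). If all `n ∈ s` have `|n| = lam` it is an eigenfunction, `-Δ u = lam² u`, and every
eigenfunction of the torus `ℝ⁴/2πℤ⁴` is of this form. -/
noncomputable def expSum (s : Finset (Fin 4 → ℤ)) (a : (Fin 4 → ℤ) → ℂ) (x : Fin 4 → ℝ) : ℂ :=
  ∑ n ∈ s, a n * Complex.exp (Complex.I * ((∑ i, (n i : ℝ) * x i : ℝ) : ℂ))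

/-- The second derivative `D²g(0)(v, w)`. -/
noncomputable def hess (g : E 3 → ℝ) (v w : E 3) : ℝ := fderiv ℝ (fderiv ℝ g) 0 v w

/-- `g` is `C^∞`, `g(0) = 0`, `Dg(0) = 0` and the Hessian `D²g(0)` is nondegenerate (of any signature). -/
def GraphFunction (g : E 3 → ℝ) : Prop :=
  ContDiff ℝ ∞ g ∧ g 0 = 0 ∧ fderiv ℝ g 0 = 0 ∧ ∀ v : E 3, v ≠ 0 → ∃ w : E 3, hess g v w ≠ 0

/-- In some ball about `p` the set `S ⊆ ℝ⁴` is contained in the graph `{p + J y + g(y) nu}` of `g` over the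
hyperplane `p + J(ℝ³)`, where `J` is a linear isometry and `nu` a unit normal of this hyperplane. Since
`Dg(0) = 0` the hyperplane is the tangent hyperplane at `p`, and `D²g(0)` is the second fundamental form
at `p`; it is nondegenerate, of any signature. -/
def IsNondegenerateAt (S : Set (E 4)) (p : E 4) : Prop :=
  ∃ (J : E 3 →ₗᵢ[ℝ] E 4) (nu : E 4) (g : E 3 → ℝ) (rho : ℝ),
    ‖nu‖ = 1 ∧ (∀ v, inner ℝ nu (J v) = 0) ∧ GraphFunction g ∧ 0 < rho ∧
    ∀ x ∈ S, ‖x - p‖ < rho → ∃ y : E 3, x = p + J y + g y • nu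

/-- `∫_S |u|² dH³` for `u = expSum s a`; `H³` is the 3-dimensional Hausdorff measure of `ℝ⁴`. -/
noncomputable def surfaceEnergy (S : Set (E 4)) (s : Finset (Fin 4 → ℤ)) (a : (Fin 4 → ℤ) → ℂ) : ENNReal :=
  ∫⁻ x in S, ENNReal.ofReal (‖expSum s a (fun i => x i)‖ ^ 2) ∂(Measure.hausdorffMeasure (3 : ℝ))

/-- `∫_{[0,2π]⁴} |u|²` for `u = expSum s a`. -/
noncomputable def torusEnergy (s : Finset (Fin 4 → ℤ)) (a : (Fin 4 → ℤ) → ℂ) : ℝ :=
  ∫ x in Set.pi Set.univ (fun _ : Fin 4 => Set.Icc (0 : ℝ) (2 * Real.pi)), ‖expSum s a x‖ ^ 2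

/-- **Theorem.** Let `S` be a compact `C^∞` hypersurface of `ℝ⁴` (closed, or a compact piece of a
hypersurface) whose Gauss-Kronecker curvature vanishes nowhere, of any signature, and let `ε > 0`. Then
`∫_S |u|² dH³ ≤ C lam^ε ∫_{[0,2π]⁴} |u|²` for all eigenfunctions `u` of the flat torus `ℝ⁴/2πℤ⁴` with
eigenvalue `lam²`, `lam ≥ 1`. -/
theorem result (S : Set (E 4)) (hc : IsCompact S) (hS : ∀ p ∈ S, IsNondegenerateAt S p) (ε : ℝ)
    (hε : 0 < ε) :
    ∃ C : ℝ, 0 < C ∧ ∀ (lam : ℝ) (s : Finset (Fin 4 → ℤ)) (a : (Fin 4 → ℤ) → ℂ),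
      1 ≤ lam → (∀ n ∈ s, ∑ i, (n i : ℝ) ^ 2 = lam ^ 2) →
      surfaceEnergy S s a ≤ ENNReal.ofReal (C * lam ^ ε * torusEnergy s a) := by
  refine D4.main4 S hc (fun p hp => ?_) ε hε
  obtain ⟨J, nu, g, rho, h1, h2, ⟨h3, h4, h5, h6⟩, h7, h8⟩ := hS p hp
  refine ⟨J, nu, g, rho, h1, h2, h3, h4, h5, fun v hv h0 => ?_, h7, h8⟩
  obtain ⟨w, hw⟩ := h6 v hv
  refine hw ?_
  unfold hess
  rw [h0]
  rfl

end Pool.Agent.Results.MP_a8dae7_an.NonvanishingCurvatureFour
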