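import Pool.Agent.Lib.MP_a8dae7_an.UN.CYALL

/-!
# The uniform trace inequality for rational cylinders over positively curved hypersurfaces of the torus
-/

set_option autoImplicit false

open scoped BigOperators ContDiff
open MeasureTheory

namespace Pool.Agent.Results.MP_a8dae7_an.RationalCylinders

open Pool.Agent.Lib.MP_a8dae7_an

/-- The Euclidean space `ℝ^n`. -/
abbrev E (n : ℕ) : Type := EuclideanSpace ℝ (Fin n)

/-- The trigonometric polynomial `u(x) = ∑_{n ∈ s} a_n e^{i n·x}` on `ℝ^d` (`2π`-periodic in every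
coordinate). If all `n ∈ s` have `|n| = lam` it is an eigenfunction, `-Δ u = lam² u`, and every
eigenfunction of the torus is of this form. -/
noncomputable def expSum {d : ℕ} (s : Finset (Fin d → ℤ)) (a : (Fin d → ℤ) → ℂ) (x : Fin d → ℝ) : ℂ :=
  ∑ n ∈ s, a n * Complex.exp (Complex.I * ((∑ i, (n i : ℝ) * x i : ℝ) : ℂ))

/-- The integer vector `n`, in `ℝ^d`. -/
noncomputable def intVec {d : ℕ} (n : Fin d → ℤ) : E d := WithLp.toLp 2 fun i => (n i : ℝ)

/-- The second derivative `D²g(0)(v, v)`. -/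
noncomputable def hess {k : ℕ} (g : E k → ℝ) (v : E k) : ℝ :=
  fderiv ℝ (fderiv ℝ g) 0 v v

/-- `g` is `C^∞`, `g(0) = 0`, `Dg(0) = 0` and the Hessian `D²g(0)` is positive definite. -/
def GraphFunction {k : ℕ} (g : E k → ℝ) : Prop :=
  ContDiff ℝ ∞ g ∧ g 0 = 0 ∧ fderiv ℝ g 0 = 0 ∧ ∀ v : E k, v ≠ 0 → 0 < hess g v

/-- Near `p`, the set `Sg ⊆ ℝ^d` is contained in a rational cylinder over a positively curved hypersurface
`{J y + g(y) nu}` of the `(k+1)`-dimensional space `V = range J + ℝ nu`: in some ball about `p` every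
`x ∈ Sg` is `x = p + J y + g(y) nu + v` with `v` orthogonal to `V`. Here `J : ℝ^k → ℝ^d` is a linear isometry,
`nu` a unit vector orthogonal to its range, `g` is `C^∞`, `g(0) = 0`, `Dg(0) = 0`, the Hessian `D²g(0)` is
positive definite, and `V` is rational: it is spanned by integer vectors `b 0, …, b k`. -/
def RationalCylinderAt {d : ℕ} (k : ℕ) (Sg : Set (E d)) (p : E d) : Prop :=
  ∃ (b : Fin (k + 1) → (Fin d → ℤ)) (J : E k →ₗᵢ[ℝ] E d) (nu : E d) (g : E k → ℝ) (rho : ℝ),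
    ‖nu‖ = 1 ∧ (∀ v, inner ℝ nu (J v) = 0) ∧
    Submodule.span ℝ (Set.range fun i => intVec (b i)) =
      LinearMap.range J.toLinearMap ⊔ Submodule.span ℝ {nu} ∧
    GraphFunction g ∧ 0 < rho ∧
    ∀ x ∈ Sg, ‖x - p‖ < rho → ∃ (y : E k) (v : E d), (∀ w, inner ℝ (J w) v = 0) ∧ inner ℝ nu v = 0 ∧
      x = p + J y + g y • nu + v

/-- `∫_Sg |u|² dH^n` for `u = expSum s a`; `H^n` is the `n`-dimensional Hausdorff measure of `ℝ^(n+1)`. -/
noncomputable def surfaceEnergy {n : ℕ} (Sg : Set (E (n + 1))) (s : Finset (Fin (n + 1) → ℤ))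
    (a : (Fin (n + 1) → ℤ) → ℂ) : ENNReal :=
  ∫⁻ x in Sg, ENNReal.ofReal (‖expSum s a (fun i => x i)‖ ^ 2) ∂(Measure.hausdorffMeasure (n : ℝ))

/-- `∫_{[0,2π]^d} |u|²` for `u = expSum s a`. -/
noncomputable def torusEnergy {d : ℕ} (s : Finset (Fin d → ℤ)) (a : (Fin d → ℤ) → ℂ) : ℝ :=
  ∫ x in Set.pi Set.univ (fun _ : Fin d => Set.Icc (0 : ℝ) (2 * Real.pi)), ‖expSum s a x‖ ^ 2

/-- The uniform trace inequality for compact hypersurfaces of `T^(n+1)` that are locally contained in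
rational cylinders over positively curved hypersurfaces. -/
theorem result (n : ℕ) (Sg : Set (E (n + 1))) (hc : IsCompact Sg)
    (hp : ∀ p ∈ Sg, ∃ k, RationalCylinderAt k Sg p) :
    ∃ C : ℝ, 0 < C ∧ ∀ (lam : ℝ) (s : Finset (Fin (n + 1) → ℤ)) (a : (Fin (n + 1) → ℤ) → ℂ),
      (∀ m ∈ s, ∑ i, (m i : ℝ) ^ 2 = lam ^ 2) →
      surfaceEnergy Sg s a ≤ ENNReal.ofReal (C * torusEnergy s a) :=
  UN.CYALLM.main n Sg hc (fun p hpS => by
    obtain ⟨k, b, J, nu, g, rho, h1, h2, h3, ⟨h4, h5, h6, h7⟩, h8, h9⟩ := hp p hpS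
    exact ⟨k, UN.CYMM.cylAt_of Sg p ⟨b, J, nu, g, rho, h1, h2, h3, h4, h5, h6, h7, h8, h9⟩⟩)

end Pool.Agent.Results.MP_a8dae7_an.RationalCylinders
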